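import Pool.Agent.V2450.Deligne.Main

/-!
# Ratios of successive critical values: motives which are potentially of CM type

Let `F` be a totally imaginary number field, `M₀` a pure motive over `F` with coefficients in `E` which is
potentially of CM type (it is in the category generated by the abelian varieties with potential
complex multiplication and the Artin motives) and without middle Hodge type, `M = Res_{F/ℚ} (M₀)`, and
let `m` and `m + 1` be critical for `M` with `L(m + 1, M) ≠ 0`.

Let `k` be an algebraic closure of `E`, `B = E ⊗ ℂ` and `A = k ⊗_E B = k ⊗ ℂ`. Let `G = T(k)` be the group of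
the `k`-points of the Taniyama group `T`: the motives over `ℚ` with coefficients in `k` which are
potentially of CM type are the algebraic representations `ρ` of `G` on finite dimensional `k`-spaces `V`
(Deligne, Langlands). For a number field `K` the inverse image of `Gal(ℚ̄/K)` in `G` is a subgroup `G_K` of
index `[K : ℚ]`; the algebraic characters of `G_K` are the algebraic Hecke characters `χ` of `K`, and the
`L`-function of `Ind χ` is the Hecke `L`-function of `χ`.

* `Sides`: `D.crit V ρ` says that `(V, ρ)` is such a motive and that a given integer is critical for it,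
  `D.L V ρ ∈ A` is the value of the completed `L`-function, and `D.c V ρ ∈ A` is the product of the
  factor at infinity and (a representative of) Deligne's period. We use `D₁` for the integer `m` and
  `D₂` for the integer `m + 1`.
* `Conj D V ρ`: Deligne's conjecture, that is `D.L V ρ = e * D.c V ρ` with `e ∈ k`.
* `IsKnown D`: the facts which are known: the motives are semisimple; summands of critical motives are
  critical; `L` is multiplicative in direct sums, and `c` is, up to factors in `kˣ`; isomorphic motives
  have the same `L` and `c` (up to `kˣ`); `c` is invertible; and (`hecke`) Deligne's conjecture is true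
  for the motives `Ind_{G_K}^G χ`, that is for the critical values of the `L`-functions of algebraic Hecke
  characters `χ` of number fields `K` (Siegel and Klingen if `K` is totally real, Blasius if `K` is a CM
  field, in general Harder and Schappacher, Kings and Sprang, Kufner).
* The hypothesis `hc` on `y = (1 ⊗ i^{d_F/2} Δ_F)^n` is the known relation between the periods `c^+(M)` and
  `c^-(M)` (Deligne), combined with the quotient of the factors at infinity.
* `Ab ρ N`: the subgroup `N` acts through an abelian quotient. For `N = G_L` this says that `M` is over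
  `L` a direct sum of motives of rank one over `k` (of algebraic Hecke characters of `L`).
* `Supersolvable Q`: the group `Q` has a chain of normal subgroups with cyclic quotients.
* `IsInduced N ρ`: `ρ` is induced from a character of a subgroup `H ⊇ N` of finite index.
* `Brauer D N V ρ`: `ρ ⊕ ρ' ≅ σ` where `σ` (which is critical) and `ρ'` are direct sums of representations
  which are induced as in `IsInduced N`. By Brauer's theorem this is true if `Ab ρ N` and if `N` is
  normal and of finite index.
-/

set_option autoImplicit false

namespace Pool.Agent.Results.MP_c63a07_nt.PotentiallyAbelianMotives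

open Pool.Agent.V2450.Deligne

open scoped TensorProduct in
/-- (1) If `M` is a direct sum of motives of rank one over a Galois extension `L` of `ℚ` with a
supersolvable Galois group, then `L(m, M) = e y L(m + 1, M)` with `e ∈ k`, and `e ≠ 0` if
`L(m, M) ≠ 0`; here `m` or `m + 1` may be the centre of the functional equation. (2) This is true for
an arbitrary `L` and with `e ≠ 0`, if the values at `m` and `m + 1` of the `L`-functions of the critical
motives which are induced from algebraic Hecke characters of subfields of `L` are not zero (this is
known if `m` and `m + 1` are different from the centre, for example if the weight is even).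
(3) Descent from `k` to `E`. -/
theorem result :
    (∀ (k G A : Type) [Field k] [IsAlgClosed k] [Group G] [CommRing A] [Algebra k A]
      (D₁ D₂ : Sides k G A), IsKnown D₁ → IsKnown D₂ → ∀ (V : Type) [AddCommGroup V] [Module k V]
      (ρ : Representation k G V), D₁.crit V ρ → D₂.crit V ρ → Nontrivial V → D₂.L V ρ ≠ 0 →
      ∀ y : A, (∃ u : k, D₁.c V ρ = algebraMap k A u * (y * D₂.c V ρ) ∧ u ≠ 0) →
      (∀ (N : Subgroup G) [N.Normal], Supersolvable (G ⧸ N) → Ab ρ N →
        ∃ e : k, D₁.L V ρ = algebraMap k A e * (y * D₂.L V ρ) ∧ (D₁.L V ρ ≠ 0 → e ≠ 0)) ∧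
      (∀ N : Subgroup G,
        (∀ (W : Type) [AddCommGroup W] [Module k W] (τ : Representation k G W), D₁.crit W τ →
          IsInduced N τ → D₁.L W τ ≠ 0) →
        (∀ (W : Type) [AddCommGroup W] [Module k W] (τ : Representation k G W), D₂.crit W τ →
          IsInduced N τ → D₂.L W τ ≠ 0) → Brauer D₁ N V ρ → Brauer D₂ N V ρ →
        ∃ e : k, D₁.L V ρ = algebraMap k A e * (y * D₂.L V ρ) ∧ e ≠ 0)) ∧
    (∀ (E k B : Type) [Field E] [Field k] [Algebra E k] [CommRing B] [Algebra E B] (x y : B),
      (∃ e : k, (1 : k) ⊗ₜ[E] x = e ⊗ₜ[E] y) → ∃ e' : E, x = e' • y) := by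
  refine ⟨?_, ?_⟩
  · intro k G A _ _ _ _ _ D₁ D₂ hD₁ hD₂ V _ _ ρ hc₁ hc₂ hV hne y hc
    obtain ⟨u, hu, hu0⟩ := hc
    refine ⟨?_, ?_⟩
    · intro N _ hQ hab
      obtain ⟨e₁, he₁⟩ := conj_of_sumInd hD₁ (sumInd hD₁ N hQ _ V ρ hc₁ hV hab rfl) hc₁
      obtain ⟨e₂, he₂⟩ := conj_of_sumInd hD₂ (sumInd hD₂ N hQ _ V ρ hc₂ hV hab rfl) hc₂
      have h0 : e₂ ≠ 0 := by
        intro h
        rw [h, map_zero, zero_mul] at he₂
        exact hne he₂
      refine ⟨e₁ * u * e₂⁻¹, ?_, ?_⟩
      · rw [he₁, he₂, hu, map_mul, map_mul]
        linear_combination (-(algebraMap k A e₁ * algebraMap k A u * y * D₂.c V ρ)) *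
          am_inv (A := A) h0
      · intro h1
        refine mul_ne_zero (mul_ne_zero ?_ hu0) (inv_ne_zero h0)
        intro h
        rw [h, map_zero, zero_mul] at he₁
        exact h1 he₁
    · intro N hN₁ hN₂ hB₁ hB₂
      obtain ⟨e₁, h1, he₁⟩ := conj_of_brauer hD₁ hN₁ hB₁
      obtain ⟨e₂, h0, he₂⟩ := conj_of_brauer hD₂ hN₂ hB₂
      refine ⟨e₁ * u * e₂⁻¹, ?_, mul_ne_zero (mul_ne_zero h1 hu0) (inv_ne_zero h0)⟩
      rw [he₁, he₂, hu, map_mul, map_mul]
      linear_combination (-(algebraMap k A e₁ * algebraMap k A u * y * D₂.c V ρ)) *
        am_inv (A := A) h0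
  · rintro E k B _ _ _ _ _ x y ⟨e, h⟩
    exact descent E k B x y e h

end Pool.Agent.Results.MP_c63a07_nt.PotentiallyAbelianMotives
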