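import Pool.Agent.V11288.LZ.Par

/-!
# Ratios of successive values of motivic `L`-functions as limits of sums over primes

Let `F` be a number field (totally imaginary in the problem), `M_0` a motive over `F` of rank `n` with
coefficients in a number field `E`, pure of weight `w`, and `S` a set of primes of `F` (for example all primes
of good reduction; the Euler factors at the other finitely many primes change the ratios below by an element of
`E^*`).  For `v ∈ S` choose a matrix `F_v ∈ M_n(E)` with `det(1 - T F_v) = det(1 - T Frob_v | M_{0,λ}) ∈ E[T]`; its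
eigenvalues under every embedding `τ : E → ℂ` have absolute value `q_v^{w/2}` (only `≤` is used).  Let `L_τ(s)` be
the Euler product of `det(1 - q_v^{-s} τ(F_v))⁻¹`, `v ∈ S`, for `Re s > w/2 + 1`, the finite part of the component
`L(s, τ, M)` without the factors outside `S`, where `M = Res_{F/ℚ}(M_0)`.

Let `m` be an integer such that the `L_τ` are meromorphic at the points of the real interval `[m, w/2 + 1]`,
holomorphic at `m` and `m + 1`, and `L_τ(m+1) ≠ 0`.  Deligne's conjecture in the form of Q1 says that for critical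
`m`, `m + 1` the family `(L_τ(m)/L_τ(m+1))_τ` is of the form `τ(e) c_τ` with `e ∈ E`, where the `c_τ` are the
components of `(1 ⊗ i^{d_F/2} Δ_F)^n`, divided by the ratio of the archimedean factors, a power of `2π`.

Let `γ > π/2`, and for `X > 1`, with `u = k log q_v / log X`,

`D_τ(X) = ∑_{v ∈ S} ∑_{k ≥ 1} τ(tr F_v^k) (q_v^{-km} - q_v^{-k(m+1)}) / k · e^{iγu} / Γ(1 + u)`.

1. The sum converges absolutely.
2. `exp D_τ(X) = L_τ(m)/L_τ(m+1) + O(1/log X)` for `X → ∞`.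
3. For nonzero numbers `c_τ`: there is an `e ∈ E` with `L_τ(m)/L_τ(m+1) = τ(e) c_τ` for all `τ` if and only if for
   all `b ∈ E` the sum `∑_τ τ(b) exp(D_τ(X))/c_τ` over the embeddings of `E` has a RATIONAL limit for `X → ∞`.  (It
   suffices to take the elements `b` of a basis of `E` over `ℚ`.)

So Q1 for `M_0` is the rationality of `[E : ℚ]` limits of explicit sums over the primes; no hypothesis on the zeros
of `L`-functions is used besides `L_τ(m+1) ≠ 0`.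

Proof.  `Pool.Agent.V11288.LZ` (the values of Euler products at all real points as limits, with a rate; vectors
of conjugates by the nondegeneracy of the trace form).
-/

set_option autoImplicit false

namespace Pool.Agent.Results.MP_c63a07_nt.RatiosByPrimes

open Filter Topology Set NumberField IsDedekindDomain

variable {F : Type} [Field F] [NumberField F] {E : Type} [Field E] [NumberField E] {n : ℕ}
  {S : Set (HeightOneSpectrum (𝓞 F))}

/-- `q_v`. -/
noncomputable def nrm (v : HeightOneSpectrum (𝓞 F)) : ℕ := Ideal.absNorm v.asIdeal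

/-- The eigenvalues of all `F_v` under all embeddings of `E` have absolute value at most `q_v^{w/2}`. -/
def WeightAtMost (w : ℤ) (Φ : S → Matrix (Fin n) (Fin n) E) : Prop :=
  ∀ (τ : E →+* ℂ) (v : S), ∀ z ∈ ((Φ v).map τ).charpoly.roots, ‖z‖ ≤ (nrm v.1 : ℝ) ^ ((w : ℝ) / 2)

/-- `Λ = L_τ`: the Euler product for `Re s > w/2 + 1`, meromorphic at the points of `[m, w/2 + 1]`,
holomorphic at `m` and `m + 1`, and not zero at `m + 1`. -/
structure IsLFunction (w : ℤ) (Φ : S → Matrix (Fin n) (Fin n) E) (m : ℤ) (τ : E →+* ℂ)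
    (Λ : ℂ → ℂ) : Prop where
  mero : ∀ x ∈ Icc (m : ℝ) ((w : ℝ) / 2 + 1), MeromorphicAt Λ (x : ℂ)
  holo : AnalyticAt ℂ Λ (m : ℂ)
  holo' : AnalyticAt ℂ Λ ((m : ℂ) + 1)
  ne_zero : Λ ((m : ℂ) + 1) ≠ 0
  prod : ∀ s : ℂ, (w : ℝ) / 2 + 1 < s.re →
    Λ s = ∏' v : S, ((1 - (nrm v.1 : ℂ) ^ (-s) • (Φ v).map τ).det)⁻¹

/-- The term of `D_τ(X)` at `(v, k)`. -/
noncomputable def term (Φ : S → Matrix (Fin n) (Fin n) E) (m : ℤ) (τ : E →+* ℂ) (γ X : ℝ) (v : S)
    (k : ℕ) : ℂ :=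
  τ (Φ v ^ k).trace * (1 / (nrm v.1 : ℂ) ^ (k * m) - 1 / (nrm v.1 : ℂ) ^ (k * (m + 1))) / k *
    (Complex.exp ((γ * (k * Real.log (nrm v.1) / Real.log X) : ℝ) * Complex.I) /
      (Real.Gamma (1 + k * Real.log (nrm v.1) / Real.log X) : ℂ))

/-- `D_τ(X)`, the sum over `v ∈ S` and `k ≥ 1` (here `k = x.2 + 1`). -/
noncomputable def D (Φ : S → Matrix (Fin n) (Fin n) E) (m : ℤ) (γ : ℝ) (τ : E →+* ℂ) (X : ℝ) : ℂ :=
  ∑' x : S × ℕ, term Φ m τ γ X x.1 (x.2 + 1)

open Pool.Agent.V11288.LZ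

theorem trace_map (τ : E →+* ℂ) (M : Matrix (Fin n) (Fin n) E) (k : ℕ) :
    (M.map τ ^ k).trace = τ (M ^ k).trace := by
  have h1 : M.map τ ^ k = (M ^ k).map τ := by
    rw [← RingHom.mapMatrix_apply, ← RingHom.mapMatrix_apply, map_pow]
  rw [h1]
  simp [Matrix.trace, map_sum]

theorem term_eq (Φ : S → Matrix (Fin n) (Fin n) E) (m : ℤ) (τ : E →+* ℂ) (γ X : ℝ) (x : S × ℕ) :
    tm (fun v : S => (Ideal.absNorm v.1.asIdeal : ℝ)) (fun v => (Φ v).map τ) (m : ℝ) γ X x -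
    tm (fun v : S => (Ideal.absNorm v.1.asIdeal : ℝ)) (fun v => (Φ v).map τ) ((m + 1 : ℤ) : ℝ) γ X x =
      term Φ m τ γ X x.1 (x.2 + 1) := by
  have h0 : ∀ m : ℤ, ((((Ideal.absNorm x.1.1.asIdeal : ℕ) : ℝ) ^ m : ℝ) : ℂ) ^ (x.2 + 1) =
      (nrm x.1.1 : ℂ) ^ (((x.2 + 1 : ℕ) : ℤ) * m) := by
    intro m
    push_cast
    rw [mul_comm, zpow_mul]
    norm_cast
  unfold tm term wt
  rw [trace_map, Real.rpow_intCast, Real.rpow_intCast, h0, h0]
  have h1 : Real.log (Ideal.absNorm x.1.1.asIdeal : ℝ) = Real.log (nrm x.1.1 : ℝ) := rfl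
  rw [h1, ← sub_mul]
  congr 1
  rw [← div_div, ← div_div]
  ring

/-- **Ratios of successive values as limits of sums over primes.** -/
theorem result (w : ℤ) (Φ : S → Matrix (Fin n) (Fin n) E) (hΦ : WeightAtMost w Φ) (m : ℤ)
    (L : (E →+* ℂ) → ℂ → ℂ) (hL : ∀ τ, IsLFunction w Φ m τ (L τ)) (γ : ℝ) (hγ : Real.pi / 2 < γ) :
    (∀ (τ : E →+* ℂ) (X : ℝ), 1 < X → Summable fun x : S × ℕ => ‖term Φ m τ γ X x.1 (x.2 + 1)‖) ∧
    (∀ τ : E →+* ℂ, (fun X : ℝ => Complex.exp (D Φ m γ τ X) - L τ m / L τ (m + 1)) =O[atTop]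
      (fun X : ℝ => 1 / Real.log X)) ∧
    ∀ c : (E →+* ℂ) → ℂ, (∀ τ, c τ ≠ 0) →
      ((∃ e : E, ∀ τ, L τ m / L τ (m + 1) = τ e * c τ) ↔
        ∀ b : E, ∃ y : ℚ, Tendsto (fun X : ℝ => ∑ τ : E →+* ℂ, τ b * Complex.exp (D Φ m γ τ X) / c τ)
          atTop (𝓝 (y : ℂ))) := by
  have hE : ∀ τ : E →+* ℂ, Eul 1 ((w : ℝ) / 2) (fun v : S => (Ideal.absNorm v.1.asIdeal : ℝ))
      (fun v => (Φ v).map τ) := fun τ => eul_nf fun v z hz => hΦ τ v z hz
  have hp : ∀ (τ : E →+* ℂ) (s : ℂ), 1 + (w : ℝ) / 2 < s.re → L τ s =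
      ∏' v : S, ((1 - (((Ideal.absNorm v.1.asIdeal : ℝ) : ℂ)) ^ (-s) • (Φ v).map τ).det)⁻¹ :=
    fun τ s hs => (hL τ).prod s (by linarith)
  have hm0 : ∀ τ : E →+* ℂ, ∀ x ∈ Icc (m : ℝ) (1 + (w : ℝ) / 2), MeromorphicAt (L τ) (x : ℂ) :=
    fun τ x hx => (hL τ).mero x ⟨hx.1, by linarith [hx.2]⟩
  have hm1 : ∀ τ : E →+* ℂ, ∀ x ∈ Icc ((m + 1 : ℤ) : ℝ) (1 + (w : ℝ) / 2),
      MeromorphicAt (L τ) (x : ℂ) := by
    intro τ x hx
    have h1 := hx.1
    push_cast at h1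
    exact (hL τ).mero x ⟨by linarith, by linarith [hx.2]⟩
  have hc0 : ((m : ℝ) : ℂ) = (m : ℂ) := by push_cast; rfl
  have hc1 : (((m + 1 : ℤ) : ℝ) : ℂ) = (m : ℂ) + 1 := by push_cast; rfl
  have hs0 : ∀ (τ : E →+* ℂ) (X : ℝ), 1 < X → _ := fun τ X hX =>
    ((hE τ).final' (m : ℝ) (hm0 τ) (hp τ) hγ).1 X hX
  have hs1 : ∀ (τ : E →+* ℂ) (X : ℝ), 1 < X → _ := fun τ X hX =>
    ((hE τ).final' ((m + 1 : ℤ) : ℝ) (hm1 τ) (hp τ) hγ).1 X hX
  have hD : ∀ (τ : E →+* ℂ) (X : ℝ), 1 < X → D Φ m γ τ X =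
      tot (fun v : S => (Ideal.absNorm v.1.asIdeal : ℝ)) (fun v => (Φ v).map τ) (m : ℝ) γ X -
      tot (fun v : S => (Ideal.absNorm v.1.asIdeal : ℝ)) (fun v => (Φ v).map τ) ((m + 1 : ℤ) : ℝ) γ X := by
    intro τ X hX
    unfold D tot
    rw [← (hs0 τ X hX).of_norm.tsum_sub (hs1 τ X hX).of_norm]
    exact tsum_congr fun x => (term_eq Φ m τ γ X x).symm
  have hrate : ∀ τ : E →+* ℂ, (fun X : ℝ => Complex.exp (D Φ m γ τ X) - L τ m / L τ (m + 1)) =O[atTop]
      (fun X : ℝ => 1 / Real.log X) := by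
    intro τ
    have r0 := (hE τ).rate (m : ℝ) (hm0 τ) (by rw [hc0]; exact (hL τ).holo) (hp τ) hγ
    have r1 := (hE τ).rate ((m + 1 : ℤ) : ℝ) (hm1 τ) (by rw [hc1]; exact (hL τ).holo') (hp τ) hγ
    rw [hc0] at r0
    rw [hc1] at r1
    have r2 := rate_mul r0 (rate_inv (hL τ).ne_zero r1)
    refine r2.congr' ?_ (Eventually.of_forall fun _ => rfl)
    filter_upwards [eventually_gt_atTop 1] with X hX
    rw [hD τ X hX, Complex.exp_sub, div_eq_mul_inv, div_eq_mul_inv]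
  have hlim : ∀ τ : E →+* ℂ, Tendsto (fun X : ℝ => Complex.exp (D Φ m γ τ X)) atTop
      (𝓝 (L τ m / L τ (m + 1))) := by
    intro τ
    have h1 := ((hrate τ).trans_tendsto (tendsto_const_nhds.div_atTop
      Real.tendsto_log_atTop)).add_const (L τ m / L τ (m + 1))
    simpa using h1
  refine ⟨fun τ X hX => ?_, hrate, fun c hc => ?_⟩
  · refine (((hs0 τ X hX).of_norm.sub (hs1 τ X hX).of_norm).norm).congr fun x => ?_
    rw [term_eq]
  · have hsum : ∀ b : E, Tendsto (fun X : ℝ => ∑ τ : E →+* ℂ, τ b * Complex.exp (D Φ m γ τ X) / c τ)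
        atTop (𝓝 (∑ τ : E →+* ℂ, τ b * (L τ m / L τ (m + 1) / c τ))) := by
      intro b
      refine tendsto_finsetSum _ fun τ _ => ?_
      have h1 := ((hlim τ).const_mul (τ b)).div_const (c τ)
      rw [mul_div_assoc] at h1
      exact h1
    have h1 := conj_iff (F := E) fun τ => L τ m / L τ (m + 1) / c τ
    have h2 : (∃ e : E, ∀ τ, L τ m / L τ (m + 1) = τ e * c τ) ↔
        ∃ x : E, ∀ τ : E →+* ℂ, L τ m / L τ (m + 1) / c τ = τ x := by
      refine exists_congr fun e => forall_congr' fun τ => ?_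
      rw [div_eq_iff (hc τ)]
    rw [h2, h1]
    refine forall_congr' fun b => exists_congr fun y => ?_
    constructor
    · intro h
      rw [← h]
      exact hsum b
    · intro h
      exact tendsto_nhds_unique (hsum b) h

end Pool.Agent.Results.MP_c63a07_nt.RatiosByPrimes
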